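import Pool.Agent.Helper31.LW.Goals

/-!
# LW packet XFB: the move is a shadow system which joins a body to its reflection
-/

open MeasureTheory Set
open scoped ENNReal Matrix
open Pool.Agent.Helper47.AQ

noncomputable section

namespace Pool.Agent.Helper43.LW

open Pool.Agent.Helper31.LQ Pool.Agent.Helper31.LW

/-- The convex hull of a finite family. -/
lemma hull_range {ι : Type} [Fintype ι] {n : ℕ} (f : ι → Fin n → ℝ) (z : Fin n → ℝ)
    (hz : z ∈ convexHull ℝ (range f)) :
    ∃ c : ι → ℝ, (∀ i, 0 ≤ c i) ∧ ∑ i, c i = 1 ∧ ∑ i, c i • f i = z := by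
  have hconv : Convex ℝ {z : Fin n → ℝ | ∃ c : ι → ℝ, (∀ i, 0 ≤ c i) ∧ ∑ i, c i = 1 ∧
      ∑ i, c i • f i = z} := by
    rintro x ⟨c, hc, hc1, rfl⟩ y ⟨c', hc', hc1', rfl⟩ a b ha hb hab
    refine ⟨fun i => a * c i + b * c' i, fun i => ?_, ?_, ?_⟩
    · have := hc i
      have := hc' i
      positivity
    · rw [Finset.sum_add_distrib, ← Finset.mul_sum, ← Finset.mul_sum, hc1, hc1']
      linarith
    · simp only [add_smul, Finset.sum_add_distrib, Finset.smul_sum, mul_smul]
  have hsub : range f ⊆ {z : Fin n → ℝ | ∃ c : ι → ℝ, (∀ i, 0 ≤ c i) ∧ ∑ i, c i = 1 ∧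
      ∑ i, c i • f i = z} := by
    classical
    rintro _ ⟨i, rfl⟩
    refine ⟨fun j => if j = i then 1 else 0, fun j => ?_, ?_, ?_⟩
    · dsimp only
      split_ifs <;> norm_num
    · simp
    · simp [ite_smul]
  exact convexHull_min hsub hconv hz

lemma hull_range_mem {ι : Type} [Fintype ι] {n : ℕ} (f : ι → Fin n → ℝ) (c : ι → ℝ)
    (hc : ∀ i, 0 ≤ c i) (h1 : ∑ i, c i = 1) :
    ∑ i, c i • f i ∈ convexHull ℝ (range f) :=
  (convex_convexHull ℝ _).sum_mem (fun i _ => hc i) h1
    (fun i _ => subset_convexHull ℝ _ (mem_range_self i))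

/-- `rho k` as a linear equivalence. -/
def rhoL {n : ℕ} (k : Fin n) : (Fin n → ℝ) ≃ₗ[ℝ] (Fin n → ℝ) :=
  LinearEquiv.ofInvolutive
    { toFun := rho k
      map_add' := fun x y => by
        funext l
        unfold rho
        by_cases h : l = k
        · subst h
          simp
          ring
        · simp [h]
      map_smul' := fun a x => by
        funext l
        unfold rho
        by_cases h : l = k
        · subst h
          simp
        · simp [h] }
    (fun x => by
      funext l
      show rho k (rho k x) l = x l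
      unfold rho
      by_cases h : l = k
      · subst h
        simp
      · simp [h])

lemma rhoL_apply {n : ℕ} (k : Fin n) (x : Fin n → ℝ) : rhoL k x = rho k x := rfl

/-- Linear equivalences preserve nonempty interiors. -/
lemma int_image {n : ℕ} (T : (Fin n → ℝ) ≃ₗ[ℝ] (Fin n → ℝ)) (K : Set (Fin n → ℝ))
    (h : (interior K).Nonempty) : (interior (T '' K)).Nonempty := by
  have h1 := T.toContinuousLinearEquiv.toHomeomorph.image_interior K
  have h2 : (T.toContinuousLinearEquiv.toHomeomorph : (Fin n → ℝ) → (Fin n → ℝ)) = T := rfl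
  rw [h2] at h1
  rw [← h1]
  exact h.image _

/-- The normal form has interior points. -/
lemma int_NF {n k : ℕ} (g : Fin n → Fin k) (v : Fin n → ℝ) (q : Fin n) (hv : ∀ i, 0 ≤ v i) :
    (interior (NF g v)).Nonempty := by
  classical
  set C := NF g v with hC
  have hconv : Convex ℝ C := convex_convexHull ℝ _
  have he : ∀ i : Fin n, (Pi.single i 1 : Fin n → ℝ) ∈ C := fun i =>
    subset_convexHull ℝ _ (Or.inl (mem_range_self i))
  have hw : -(wv g v (g q)) ∈ C := subset_convexHull ℝ _ (Or.inr (mem_range_self (g q)))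
  have hwv : ∀ i, 0 ≤ wv g v (g q) i := by
    intro i
    unfold wv
    split_ifs
    · exact hv i
    · exact le_rfl
  set V := ∑ i, wv g v (g q) i with hV
  have hV0 : 0 ≤ V := Finset.sum_nonneg fun i _ => hwv i
  have h0 : (0 : Fin n → ℝ) ∈ C := by
    have hm := hconv.sum_mem (t := (Finset.univ : Finset (Option (Fin n))))
      (w := fun o => match o with
        | none => 1 / (1 + V)
        | some i => wv g v (g q) i / (1 + V))
      (z := fun o => match o with
        | none => -(wv g v (g q))
        | some i => (Pi.single i 1 : Fin n → ℝ))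
      (by
        rintro (_ | i) _
        · positivity
        · have := hwv i
          dsimp only
          positivity)
      (by
        rw [Fintype.sum_option]
        dsimp only
        rw [← Finset.sum_div, ← hV]
        field_simp)
      (by
        rintro (_ | i) _
        · exact hw
        · exact he i)
    rw [Fintype.sum_option] at hm
    dsimp only at hm
    have h2 : (1 / (1 + V)) • (-(wv g v (g q))) +
        ∑ i, (wv g v (g q) i / (1 + V)) • (Pi.single i 1 : Fin n → ℝ) = 0 := by
      funext l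
      simp only [Pi.add_apply, Pi.smul_apply, Pi.neg_apply, Finset.sum_apply, smul_eq_mul,
        Pi.zero_apply]
      rw [Finset.sum_eq_single l]
      · rw [Pi.single_eq_same]
        ring
      · intro b _ hb
        rw [Pi.single_eq_of_ne (Ne.symm hb)]
        ring
      · intro h
        exact absurd (Finset.mem_univ l) h
    rwa [h2] at hm
  have hbox : {x : Fin n → ℝ | ∀ i, x i ∈ Ioo (0 : ℝ) (1 / ((n : ℝ) + 1))} ⊆ C := by
    intro x hx
    have hsum : ∑ i, x i ≤ 1 := by
      calc ∑ i, x i ≤ ∑ _i : Fin n, 1 / ((n : ℝ) + 1) :=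
            Finset.sum_le_sum fun i _ => (hx i).2.le
        _ = n * (1 / ((n : ℝ) + 1)) := by simp
        _ ≤ 1 := by
            rw [mul_one_div, div_le_one (by positivity)]
            linarith
    have hm := hconv.sum_mem (t := (Finset.univ : Finset (Option (Fin n))))
      (w := fun o => match o with
        | none => 1 - ∑ i, x i
        | some i => x i)
      (z := fun o => match o with
        | none => (0 : Fin n → ℝ)
        | some i => (Pi.single i 1 : Fin n → ℝ))
      (by
        rintro (_ | i) _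
        · dsimp only
          linarith
        · exact (hx i).1.le)
      (by
        rw [Fintype.sum_option]
        dsimp only
        ring)
      (by
        rintro (_ | i) _
        · exact h0
        · exact he i)
    rw [Fintype.sum_option] at hm
    dsimp only at hm
    have h2 : (1 - ∑ i, x i) • (0 : Fin n → ℝ) +
        ∑ i, (x i) • (Pi.single i 1 : Fin n → ℝ) = x := by
      rw [smul_zero, zero_add]
      funext l
      simp only [Pi.smul_apply, Finset.sum_apply, smul_eq_mul]
      rw [Finset.sum_eq_single l]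
      · rw [Pi.single_eq_same]
        ring
      · intro b _ hb
        rw [Pi.single_eq_of_ne (Ne.symm hb)]
        ring
      · intro h
        exact absurd (Finset.mem_univ l) h
    rwa [h2] at hm
  have hopen : IsOpen {x : Fin n → ℝ | ∀ i, x i ∈ Ioo (0 : ℝ) (1 / ((n : ℝ) + 1))} := by
    have : {x : Fin n → ℝ | ∀ i, x i ∈ Ioo (0 : ℝ) (1 / ((n : ℝ) + 1))} =
        Set.univ.pi fun _ => Ioo (0 : ℝ) (1 / ((n : ℝ) + 1)) := by
      ext x
      simp [Set.mem_pi]
    rw [this]
    exact isOpen_set_pi Set.finite_univ fun _ _ => isOpen_Ioo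
  refine ⟨fun _ => 1 / (2 * ((n : ℝ) + 1)), ?_⟩
  refine interior_maximal hbox hopen ?_
  intro i
  constructor
  · positivity
  · apply one_div_lt_one_div_of_lt <;> [positivity; nlinarith [(Nat.cast_nonneg n : (0 : ℝ) ≤ n)]]

/-- All the points of the move. -/
def pt {n k : ℕ} (g : Fin n → Fin k) (w : Fin n → ℝ) (q : Fin n) (s : ℝ) :
    Fin n ⊕ Fin k → Fin n → ℝ := Sum.elim (pa g w q s) (pb g w q s)

lemma XF_eq {n k : ℕ} (g : Fin n → Fin k) (w : Fin n → ℝ) (q : Fin n) (s : ℝ) :
    XF g w q s = convexHull ℝ (range (pt g w q s)) := by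
  unfold XF pt
  rw [Sum.elim_range]

lemma pt_off {n k : ℕ} (g : Fin n → Fin k) (w : Fin n → ℝ) (q : Fin n) (s t : ℝ)
    (a : Fin n ⊕ Fin k) (l : Fin n) (hl : l ≠ q) : pt g w q s a l = pt g w q t a l := by
  rcases a with i | j
  · simp only [pt, Sum.elim_inl, pa]
    split_ifs with h1 h2
    · simp [Pi.single_eq_of_ne hl]
    · simp [Pi.single_eq_of_ne hl]
    · rfl
  · simp only [pt, Sum.elim_inr, pb]
    split_ifs with h1
    · simp [Pi.single_eq_of_ne hl]
    · rfl

lemma dl_aff {n k : ℕ} (g : Fin n → Fin k) (w : Fin n → ℝ) (q : Fin n) (s t r : ℝ) :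
    dl g w q ((1 - r) * s + r * t) = (1 - r) * dl g w q s + r * dl g w q t := by
  unfold dl
  ring

lemma pt_on {n k : ℕ} (g : Fin n → Fin k) (w : Fin n → ℝ) (q : Fin n) (s t r : ℝ)
    (a : Fin n ⊕ Fin k) : pt g w q ((1 - r) * s + r * t) a q =
      (1 - r) * pt g w q s a q + r * pt g w q t a q := by
  have hd := dl_aff g w q s t r
  rcases a with i | j
  · simp only [pt, Sum.elim_inl, pa]
    split_ifs with h1 h2
    · simp only [Pi.add_apply, Pi.neg_apply, Pi.single_eq_same, hd]
      ring
    · simp only [Pi.add_apply, Pi.single_eq_same, hd]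
      ring
    · ring
  · simp only [pt, Sum.elim_inr, pb]
    split_ifs with h1
    · simp only [Pi.add_apply, Pi.neg_apply, Pi.single_eq_same, hd]
      ring
    · ring

theorem fibX {n k : ℕ} (g : Fin n → Fin k) (w : Fin n → ℝ) (q : Fin n) (s t r : ℝ) :
    Fib q (XF g w q s) (XF g w q t) (XF g w q ((1 - r) * s + r * t)) r := by
  intro z hz
  rw [XF_eq] at hz
  obtain ⟨c, hc, h1, hcz⟩ := hull_range _ z hz
  refine ⟨∑ a, c a • pt g w q s a, ?_, ∑ a, c a • pt g w q t a, ?_, ?_, ?_⟩
  · rw [XF_eq]
    exact hull_range_mem _ c hc h1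
  · rw [XF_eq]
    exact hull_range_mem _ c hc h1
  · intro l hl
    rw [← hcz]
    simp only [Finset.sum_apply, Pi.smul_apply, smul_eq_mul]
    constructor
    · refine Finset.sum_congr rfl fun a _ => ?_
      rw [pt_off g w q s ((1 - r) * s + r * t) a l hl]
    · refine Finset.sum_congr rfl fun a _ => ?_
      rw [pt_off g w q t ((1 - r) * s + r * t) a l hl]
  · rw [← hcz]
    simp only [Finset.sum_apply, Pi.smul_apply, smul_eq_mul, Finset.mul_sum]
    rw [← Finset.sum_add_distrib]
    refine Finset.sum_congr rfl fun a _ => ?_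
    rw [pt_on g w q s t r a]
    ring

lemma dl_one {n k : ℕ} (g : Fin n → Fin k) (w : Fin n → ℝ) (q : Fin n) :
    dl g w q 1 = -dl g w q 0 := by
  unfold dl
  ring

/-- The permutation of the points in the reflection. -/
lemma rho_pt {n k : ℕ} (g : Fin n → Fin k) (w : Fin n → ℝ) (q : Fin n) (hq : w q = 0) :
    (rho q (pt g w q 0 (Sum.inl q)) = pt g w q 1 (Sum.inr (g q))) ∧
    (rho q (pt g w q 0 (Sum.inr (g q))) = pt g w q 1 (Sum.inl q)) ∧
    (∀ i, i ≠ q → rho q (pt g w q 0 (Sum.inl i)) = pt g w q 1 (Sum.inl i)) ∧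
    (∀ j, j ≠ g q → rho q (pt g w q 0 (Sum.inr j)) = pt g w q 1 (Sum.inr j)) := by
  have hd := dl_one g w q
  have hwq : wv g w (g q) q = 0 := by
    unfold wv
    rw [if_pos rfl, hq]
  refine ⟨?_, ?_, ?_, ?_⟩
  · simp only [pt, Sum.elim_inl, Sum.elim_inr, pa, pb, if_true]
    funext l
    unfold rho
    by_cases h : l = q
    · subst h
      simp [hwq, hd]
      ring
    · simp [h]
  · simp only [pt, Sum.elim_inl, Sum.elim_inr, pa, pb, if_true]
    funext l
    unfold rho
    by_cases h : l = q
    · subst h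
      simp [hwq, hd]
      ring
    · simp [h]
  · intro i hi
    simp only [pt, Sum.elim_inl, pa, if_neg hi]
    by_cases h2 : g i = g q
    · simp only [if_pos h2]
      funext l
      unfold rho
      by_cases h : l = q
      · subst h
        simp [hd, Pi.single_eq_of_ne (Ne.symm hi)]
      · simp [h]
    · simp only [if_neg h2]
      funext l
      unfold rho
      by_cases h : l = q
      · subst h
        simp [Pi.single_eq_of_ne (Ne.symm hi)]
      · simp [h]
  · intro j hj
    simp only [pt, Sum.elim_inr, pb, if_neg hj]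
    funext l
    unfold rho
    by_cases h : l = q
    · subst h
      simp [wv, Ne.symm hj]
    · simp [h]

theorem reflX {n k : ℕ} (g : Fin n → Fin k) (w : Fin n → ℝ) (q : Fin n) (hq : w q = 0) :
    XF g w q 1 = rho q '' XF g w q 0 := by
  obtain ⟨h1, h2, h3, h4⟩ := rho_pt g w q hq
  have himg : rho q '' XF g w q 0 = convexHull ℝ (rho q '' range (pt g w q 0)) := by
    rw [XF_eq]
    exact (rhoL q).toLinearMap.image_convexHull (range (pt g w q 0))
  rw [himg, XF_eq]
  congr 1
  ext z
  constructor
  · rintro ⟨a, rfl⟩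
    rcases a with i | j
    · by_cases hi : i = q
      · subst hi
        exact ⟨_, mem_range_self (Sum.inr (g i)), h2⟩
      · exact ⟨_, mem_range_self (Sum.inl i), h3 i hi⟩
    · by_cases hj : j = g q
      · subst hj
        exact ⟨_, mem_range_self (Sum.inl q), h1⟩
      · exact ⟨_, mem_range_self (Sum.inr j), h4 j hj⟩
  · rintro ⟨_, ⟨a, rfl⟩, rfl⟩
    rcases a with i | j
    · by_cases hi : i = q
      · subst hi
        exact ⟨Sum.inr (g i), h1.symm⟩
      · exact ⟨Sum.inl i, (h3 i hi).symm⟩
    · by_cases hj : j = g q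
      · subst hj
        exact ⟨Sum.inl q, h2.symm⟩
      · exact ⟨Sum.inr j, (h4 j hj).symm⟩

theorem gXFB (hXL : Pool.Agent.Helper31.LW.XL) : Pool.Agent.Helper31.LW.XFB := by
  intro n k g w q hw hq
  have hcomp : ∀ s, IsCompact (XF g w q s) := by
    intro s
    unfold XF
    exact ((finite_range _).union (finite_range _)).isCompact_convexHull ℝ
  have hcv : ∀ s, Convex ℝ (XF g w q s) := fun s => convex_convexHull ℝ _
  have hint : ∀ s, 0 ≤ s → s < 1 → (interior (XF g w q s)).Nonempty := by
    intro s hs hs1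
    obtain ⟨T, hT⟩ := hXL n k g w q hw hq s hs hs1
    rw [← hT]
    refine int_image T _ (int_NF g _ q ?_)
    intro i
    unfold ws
    have h1 : 0 < 1 - s := by linarith
    have := hw i
    split_ifs <;> positivity
  refine ⟨?_, ?_, reflX g w q hq⟩
  · intro t ht
    refine ⟨hcv t, hcomp t, ?_⟩
    rcases lt_or_eq_of_le ht.2 with h | h
    · exact hint t ht.1 h
    · rw [h, reflX g w q hq]
      exact int_image (rhoL q) _ (hint 0 le_rfl zero_lt_one)
  · intro s _ t _ r _
    exact fibX g w q s t r

end Pool.Agent.Helper43.LW
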